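import Pool.Agent.MP_81f5b7_pr.H66.Spec

/-! Depth first search: a long chain of implications above the threshold. -/

set_option linter.unusedSectionVars false

namespace Pool.Agent.MP_81f5b7_pr.H66

open Finset
open scoped Classical

namespace PATH

/-- stack, finished vertices, unvisited vertices, fresh pairs -/
structure DS (V : Type) where
  h : ℕ
  v : ℕ → V
  a : ℕ → C3
  F : Finset V
  T : Finset V
  fr : Finset (Sym2 V)

/-- the moves -/
inductive Act (V : Type) where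
  | idle : Act V
  | start : V → Act V
  | ask : V → Act V
  | pop : Act V

variable {V : Type} [Fintype V] [DecidableEq V] (τ : V → C3) (Z : Finset V) (s L : ℕ)

/-- when a move is allowed -/
def Allowed (t : DS V) : Act V → Prop
  | .idle => L < t.h ∨ s ≤ t.F.card ∨ (t.h = 0 ∧ t.T = ∅)
  | .start y => t.h = 0 ∧ y ∈ t.T
  | .ask y => t.h ≤ L ∧ 0 < t.h ∧ y ∈ t.T ∧ τ y ≠ t.a (t.h - 1) ∧ s(t.v (t.h - 1), y) ∈ t.fr
  | .pop => t.F.card < s ∧ 0 < t.h ∧
      ∀ y ∈ t.T, τ y ≠ t.a (t.h - 1) → s(t.v (t.h - 1), y) ∉ t.fr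

theorem exists_allowed (t : DS V) : ∃ x, Allowed τ s L t x := by
  by_cases h1 : L < t.h
  · exact ⟨.idle, Or.inl h1⟩
  by_cases h2 : s ≤ t.F.card
  · exact ⟨.idle, Or.inr (Or.inl h2)⟩
  rcases Nat.eq_zero_or_pos t.h with h3 | h3
  · rcases t.T.eq_empty_or_nonempty with h4 | ⟨y, hy⟩
    · exact ⟨.idle, Or.inr (Or.inr ⟨h3, h4⟩)⟩
    · exact ⟨.start y, h3, hy⟩
  by_cases h4 : ∃ y ∈ t.T, τ y ≠ t.a (t.h - 1) ∧ s(t.v (t.h - 1), y) ∈ t.fr
  · obtain ⟨y, h5, h6, h7⟩ := h4
    exact ⟨.ask y, by omega, h3, h5, h6, h7⟩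
  · push Not at h4
    exact ⟨.pop, by omega, h3, h4⟩

/-- the chosen move -/
noncomputable def act (t : DS V) : Act V := (exists_allowed τ s L t).choose

theorem act_spec {t : DS V} {x : Act V} (h : act τ s L t = x) : Allowed τ s L t x :=
  h ▸ (exists_allowed τ s L t).choose_spec

/-- put a vertex on the stack -/
def push (t : DS V) (y : V) (c : C3) (fr : Finset (Sym2 V)) : DS V :=
  ⟨t.h + 1, Function.update t.v t.h y, Function.update t.a t.h c, t.F, t.T.erase y, fr⟩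

/-- the pair looked at -/
def qu (t : DS V) : Act V → Finset (Sym2 V)
  | .ask y => {s(t.v (t.h - 1), y)}
  | _ => ∅

/-- the result of a move -/
def mv (t : DS V) (B : Finset (Sym2 V)) : Act V → DS V
  | .idle => t
  | .start y => push t y 0 t.fr
  | .ask y => if s(t.v (t.h - 1), y) ∈ B then
      push t y (-τ y - t.a (t.h - 1)) (t.fr.erase s(t.v (t.h - 1), y))
      else ⟨t.h, t.v, t.a, t.F, t.T, t.fr.erase s(t.v (t.h - 1), y)⟩
  | .pop => ⟨t.h - 1, t.v, t.a, insert (t.v (t.h - 1)) t.F, t.T, t.fr⟩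

/-- the search -/
noncomputable def dfs : Mach (DS V) (Sym2 V) where
  Q t := qu t (act τ s L t)
  nx t B := mv τ t B (act τ s L t)
  fr t := t.fr
  Inv _ := True
  loc t B := by cases act τ s L t <;> simp [mv, qu]
  inv _ _ _ := trivial
  sub t _ := by
    rcases h : act τ s L t with _ | y | y | _ <;> simp only [qu, empty_subset]
    exact singleton_subset_iff.2 (act_spec τ s L h).2.2.2.2
  shr t B _ := by
    rcases act τ s L t with _ | y | y | _ <;> simp only [qu, mv, push, sdiff_empty, Subset.rfl]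
    split_ifs <;> exact (erase_eq _ _).subset

/-- the invariant of the search on `Γ` -/
structure Iv (Γ : Finset (Sym2 V)) (t : DS V) : Prop where
  inj : Set.InjOn t.v (Set.Iio t.h)
  ch : ∀ i, i + 1 < t.h → t.v (i + 1) ∉ Z ∧ t.a i ≠ τ (t.v (i + 1)) ∧
    t.a (i + 1) ≠ τ (t.v (i + 1)) ∧ t.a i ≠ t.a (i + 1) ∧ s(t.v i, t.v (i + 1)) ∈ Γ
  vT : ∀ i < t.h, t.v i ∉ t.T
  vF : ∀ i < t.h, t.v i ∉ t.F
  FT : ∀ x ∈ t.F, x ∉ t.T
  TZ : ∀ y ∈ t.T, y ∉ Z
  qd : ∀ x ∈ t.F, ∃ c, ∀ y ∈ t.T, τ y ≠ c → s(x, y) ∉ t.fr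
  cnt : t.F.card + t.h + t.T.card = Zᶜ.card
  hF : t.F.card ≤ s
  hh : t.h ≤ L + 1

variable {τ Z s L}

theorem Iv.push {Γ : Finset (Sym2 V)} {t : DS V} (h : Iv τ Z s L Γ t) {y : V} {c : C3}
    {fr : Finset (Sym2 V)} (hy : y ∈ t.T) (hfr : fr ⊆ t.fr) (hL : t.h ≤ L)
    (hc : ∀ i, i + 1 = t.h → t.a i ≠ τ y ∧ c ≠ τ y ∧ t.a i ≠ c ∧ s(t.v i, y) ∈ Γ) :
    Iv τ Z s L Γ (push t y c fr) := by
  have hv : ∀ i < t.h, Function.update t.v t.h y i = t.v i := fun i hi =>
    Function.update_of_ne hi.ne _ _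
  have ha : ∀ i < t.h, Function.update t.a t.h c i = t.a i := fun i hi =>
    Function.update_of_ne hi.ne _ _
  refine ⟨?_, ?_, ?_, ?_, ?_, ?_, ?_, ?_, h.hF, ?_⟩ <;> simp only [PATH.push]
  · intro i hi j hj e
    rcases (Nat.lt_succ_iff_lt_or_eq.1 hi) with hi | rfl <;>
      rcases (Nat.lt_succ_iff_lt_or_eq.1 hj) with hj | rfl
    · rw [hv i hi, hv j hj] at e
      exact h.inj hi hj e
    · rw [hv i hi, Function.update_self] at e
      exact absurd (e ▸ hy) (h.vT i hi)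
    · rw [hv j hj, Function.update_self] at e
      exact absurd (e ▸ hy) (h.vT j hj)
    · rfl
  · intro i hi
    rcases (Nat.lt_succ_iff_lt_or_eq.1 hi) with hi | e
    · rw [hv i (by omega), hv _ hi, ha i (by omega), ha _ hi]
      exact h.ch i hi
    · rw [hv i (by omega), ha i (by omega), e, Function.update_self, Function.update_self]
      exact ⟨h.TZ y hy, hc i e⟩
  · intro i hi
    rcases (Nat.lt_succ_iff_lt_or_eq.1 hi) with hi | rfl
    · rw [hv i hi]
      exact fun h' => h.vT i hi (mem_of_mem_erase h')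
    · rw [Function.update_self]
      exact notMem_erase _ _
  · intro i hi
    rcases (Nat.lt_succ_iff_lt_or_eq.1 hi) with hi | rfl
    · rw [hv i hi]
      exact h.vF i hi
    · rw [Function.update_self]
      exact fun h' => h.FT y h' hy
  · exact fun x hx h' => h.FT x hx (mem_of_mem_erase h')
  · exact fun x hx => h.TZ x (mem_of_mem_erase hx)
  · exact fun x hx => (h.qd x hx).imp fun c h1 z hz h2 h3 => h1 z (mem_of_mem_erase hz) h2 (hfr h3)
  · have := card_erase_add_one hy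
    have := h.cnt
    omega
  · omega

theorem Iv.step {Γ : Finset (Sym2 V)} {t : DS V} (h : Iv τ Z s L Γ t) :
    Iv τ Z s L Γ ((dfs τ s L).nx t Γ) := by
  change Iv τ Z s L Γ (mv τ t Γ (act τ s L t))
  rcases e : act τ s L t with _ | y | y | _
  · exact h
  · obtain ⟨h1, h2⟩ := act_spec τ s L e
    exact h.push h2 Subset.rfl (by omega) fun i hi => by omega
  · obtain ⟨h1, h2, h3, h4, h5⟩ := act_spec τ s L e
    simp only [mv]
    split_ifs with h6
    · refine h.push h3 (erase_subset _ _) h1 fun i hi => ?_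
      obtain rfl : i = t.h - 1 := by omega
      exact ⟨h4.symm, (third_ne h4.symm).1, (third_ne h4.symm).2.symm, h6⟩
    · exact ⟨h.inj, h.ch, h.vT, h.vF, h.FT, h.TZ, fun x hx => (h.qd x hx).imp
        fun c h1 z hz h2 h3 => h1 z hz h2 (mem_of_mem_erase h3), h.cnt, h.hF, h.hh⟩
  · obtain ⟨h1, h2, h3⟩ := act_spec τ s L e
    have h4 := card_insert_of_notMem (h.vF (t.h - 1) (by omega))
    refine ⟨h.inj.mono (Set.Iio_subset_Iio (Nat.sub_le _ _)), ?_, ?_, ?_, ?_, h.TZ, ?_, ?_, ?_, ?_⟩ <;>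
      simp only [mv]
    · exact fun i hi => h.ch i (by omega)
    · exact fun i hi => h.vT i (by omega)
    · intro i hi h5
      rcases mem_insert.1 h5 with h5 | h5
      · have := h.inj (show i < t.h by omega) (show t.h - 1 < t.h by omega) h5
        omega
      · exact h.vF i (by omega) h5
    · intro x hx
      rcases mem_insert.1 hx with rfl | hx
      exacts [h.vT _ (by omega), h.FT x hx]
    · intro x hx
      rcases mem_insert.1 hx with rfl | hx
      exacts [⟨_, h3⟩, h.qd x hx]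
    · have := h.cnt
      omega
    · omega
    · have := h.hh
      omega

/-- the measure that drops at every move -/
def μ (t : DS V) : ℕ := t.fr.card + 2 * t.T.card + t.h

theorem drop (Γ : Finset (Sym2 V)) (t : DS V) :
    (act τ s L t = .idle ∧ (dfs τ s L).nx t Γ = t) ∨ μ ((dfs τ s L).nx t Γ) + 1 ≤ μ t := by
  change (_ ∧ mv τ t Γ (act τ s L t) = t) ∨ μ (mv τ t Γ (act τ s L t)) + 1 ≤ μ t
  rcases e : act τ s L t with _ | y | y | _
  · exact Or.inl ⟨rfl, rfl⟩
  · have := card_erase_add_one (act_spec τ s L e).2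
    right
    simp only [mv, μ, push]
    omega
  · obtain ⟨h1, h2, h3, h4, h5⟩ := act_spec τ s L e
    have := card_erase_add_one h3
    have := card_erase_add_one h5
    right
    simp only [mv]
    split_ifs <;> simp only [μ, push] <;> omega
  · have := (act_spec τ s L e).2.1
    right
    simp only [mv, μ]
    omega

theorem ends (Γ : Finset (Sym2 V)) (t : DS V) (k : ℕ) :
    act τ s L ((dfs τ s L).at Γ t k) = .idle ∨ μ ((dfs τ s L).at Γ t k) + k ≤ μ t := by
  induction k with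
  | zero => exact Or.inr le_rfl
  | succ k ih =>
    rw [Mach.at_succ']
    rcases drop (τ := τ) (s := s) (L := L) Γ ((dfs τ s L).at Γ t k) with ⟨h1, h2⟩ | h1
    · rw [h2]
      exact Or.inl h1
    · rcases ih with ih | ih
      · left
        change act τ s L (mv τ _ Γ (act τ s L _)) = _
        rw [ih]
        exact ih
      · right
        omega

theorem Iv.count {Γ : Finset (Sym2 V)} {t : DS V} (h : Iv τ Z s L Γ t) {m : ℝ}
    (hm : ∀ c, m ≤ (Zᶜ.filter fun y => τ y ≠ c).card) :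
    t.F.card * (m - t.F.card - (L + 1)) + t.fr.card ≤ Fintype.card (Sym2 V) := by
  have h1 : ((t.F ×ˢ t.T).filter fun z => s(z.1, z.2) ∉ t.fr).card ≤ t.frᶜ.card := by
    refine card_le_card_of_injOn (fun z => s(z.1, z.2)) (fun z hz => ?_) fun z hz w hw e => ?_
    · exact mem_coe.2 (mem_compl.2 (mem_filter.1 (mem_coe.1 hz)).2)
    · have hz' := mem_product.1 (mem_filter.1 (mem_coe.1 hz)).1
      have hw' := mem_product.1 (mem_filter.1 (mem_coe.1 hw)).1
      rcases Sym2.eq_iff.1 e with e | e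
      · exact Prod.ext e.1 e.2
      · exact absurd (e.1 ▸ hw'.2) (h.FT _ hz'.1)
  rw [card_filter, sum_product] at h1
  have h2 : ∀ x ∈ t.F, m - t.F.card - (L + 1) ≤
      ((∑ y ∈ t.T, if s(x, y) ∉ t.fr then 1 else 0 : ℕ) : ℝ) := fun x hx => by
    obtain ⟨c, hc⟩ := h.qd x hx
    rw [← card_filter]
    have h3 : (Zᶜ.filter fun y => τ y ≠ c) ⊆ (t.T.filter fun y => s(x, y) ∉ t.fr) ∪ Zᶜ \ t.T := by
      intro y hy
      rw [mem_filter] at hy
      by_cases h4 : y ∈ t.T
      · exact mem_union_left _ (mem_filter.2 ⟨h4, hc y h4 hy.2⟩)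
      · exact mem_union_right _ (mem_sdiff.2 ⟨hy.1, h4⟩)
    have h4 := (card_le_card h3).trans (card_union_le _ _)
    have h5 := card_sdiff_add_card_eq_card (show t.T ⊆ Zᶜ from fun y hy => mem_compl.2 (h.TZ y hy))
    have h6 := h.cnt
    have h7 := h.hh
    have h8 : (Zᶜ.filter fun y => τ y ≠ c).card ≤
        (t.T.filter fun y => s(x, y) ∉ t.fr).card + t.F.card + (L + 1) := by omega
    have h9 : ((Zᶜ.filter fun y => τ y ≠ c).card : ℝ) ≤
        (t.T.filter fun y => s(x, y) ∉ t.fr).card + t.F.card + (L + 1) := by exact_mod_cast h8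
    linarith [hm c]
  have h3 := sum_le_sum h2
  rw [sum_const, nsmul_eq_mul, ← Nat.cast_sum] at h3
  have h4 : ((t.fr.card + t.frᶜ.card : ℕ) : ℝ) = Fintype.card (Sym2 V) := by
    rw [card_add_card_compl]
  push_cast at h4
  have h5 := (Nat.cast_le (α := ℝ)).2 h1
  linarith

theorem super {p u : ℝ} (hu : 0 ≤ u) (t : DS V) :
    Ex p ((dfs τ s L).Q t) (fun B => Real.exp (u * ((dfs τ s L).nx t B).T.card -
      p * (1 - Real.exp (-u)) * ((dfs τ s L).nx t B).fr.card)) ≤
      Real.exp (u * t.T.card - p * (1 - Real.exp (-u)) * t.fr.card) := by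
  change Ex p (qu t (act τ s L t)) (fun B => Real.exp (u * (mv τ t B (act τ s L t)).T.card -
      p * (1 - Real.exp (-u)) * (mv τ t B (act τ s L t)).fr.card)) ≤ _
  rcases e : act τ s L t with _ | y | y | _
  · simp [qu, mv]
  · simp only [qu, mv, push, Ex_empty, Real.exp_le_exp]
    have : ((t.T.erase y).card : ℝ) ≤ t.T.card := Nat.cast_le.2 card_erase_le
    nlinarith
  · obtain ⟨-, -, h3, -, h5⟩ := act_spec τ s L e
    have e1 : (t.T.card : ℝ) = (t.T.erase y).card + 1 := by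
      rw [← card_erase_add_one h3]; push_cast; rfl
    have e2 : (t.fr.card : ℝ) = (t.fr.erase s(t.v (t.h - 1), y)).card + 1 := by
      rw [← card_erase_add_one h5]; push_cast; rfl
    simp only [qu]
    rw [← insert_empty_eq, Ex_insert (notMem_empty _), Ex_empty, Ex_empty]
    simp only [mv, mem_insert_self, if_true, notMem_empty, if_false, push]
    rw [e1, e2]
    generalize ((t.T.erase y).card : ℝ) = A
    generalize ((t.fr.erase s(t.v (t.h - 1), y)).card : ℝ) = B
    set l := p * (1 - Real.exp (-u)) with hl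
    have e3 : Real.exp (u * A - l * B) = Real.exp (u * (A + 1) - l * B) * Real.exp (-u) := by
      rw [← Real.exp_add]; congr 1; ring
    have e4 : Real.exp (u * (A + 1) - l * (B + 1)) =
        Real.exp (u * (A + 1) - l * B) * Real.exp (-l) := by
      rw [← Real.exp_add]; congr 1; ring
    rw [e3, e4]
    have h6 := mul_le_mul_of_nonneg_left (Real.add_one_le_exp (-l))
      (Real.exp_pos (u * (A + 1) - l * B)).le
    refine le_trans (le_of_eq ?_) h6
    rw [hl]
    ring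
  · simp [qu, mv]

theorem core [Nonempty V] {p u m : ℝ} (h0 : 0 ≤ p) (h1 : p ≤ 1) (hu : 0 ≤ u)
    (hm : ∀ c, m ≤ (Zᶜ.filter fun y => τ y ≠ c).card) (hs : s ≤ Zᶜ.card) :
    Ex p univ (fun Γ => ind (¬∃ v a, Chain τ Z Γ L v a)) ≤
      Real.exp (u * (s + (L + 1)) - p * (1 - Real.exp (-u)) * (s * (m - s - (L + 1)))) := by
  set l := p * (1 - Real.exp (-u)) with hl
  have hl0 : 0 ≤ l := mul_nonneg h0 (sub_nonneg.2 (Real.exp_le_one_iff.2 (by linarith)))
  let t₀ : DS V := ⟨0, fun _ => Classical.arbitrary V, fun _ => 0, ∅, Zᶜ, univ⟩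
  have h2 := mart₀ (dfs τ s L) h0 h1 (fun t => Real.exp (u * t.T.card - l * t.fr.card))
    (fun t _ => super hu t) (μ t₀ + 1) t₀ univ trivial Subset.rfl
  set A := u * (s + (L + 1)) - l * (s * (m - s - (L + 1))) -
    (u * Zᶜ.card - l * Fintype.card (Sym2 V)) with hA
  have h3 := mul_le_mul_of_nonneg_left h2 (Real.exp_pos A).le
  rw [← Ex_mul, ← Real.exp_add] at h3
  refine le_trans (Ex_mono h0 h1 fun Γ _ => ind_le (by positivity) fun hn => ?_)
    (h3.trans (le_of_eq ?_))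
  swap
  · congr 1
    simp only [t₀, hA, card_univ]
    ring
  have hi : ∀ k, Iv τ Z s L Γ ((dfs τ s L).at Γ t₀ k) := fun k => by
    induction k with
    | zero => constructor <;> simp [t₀]
    | succ k ih => rw [Mach.at_succ']; exact ih.step
  have he := (ends (τ := τ) (s := s) (L := L) Γ t₀ (μ t₀ + 1)).resolve_right (by omega)
  have h4 := hi (μ t₀ + 1)
  generalize (dfs τ s L).at Γ t₀ (μ t₀ + 1) = t at he h4 ⊢
  have h5 : t.F.card = s := by
    refine le_antisymm h4.hF ?_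
    rcases act_spec τ s L he with h5 | h5 | ⟨h5, h6⟩
    · exact absurd ⟨t.v, t.a, h4.inj.mono fun i hi => lt_of_le_of_lt hi h5,
        fun i hi => h4.ch i (by omega)⟩ hn
    · exact h5
    · have := h4.cnt
      rw [h5, h6, card_empty] at this
      omega
  have h6 := h4.count hm
  rw [h5] at h6
  have h7 : (Zᶜ.card : ℝ) ≤ s + (L + 1) + t.T.card := by
    have := h4.cnt
    have := h4.hh
    exact_mod_cast (by omega : Zᶜ.card ≤ s + (L + 1) + t.T.card)
  rw [← Real.exp_add, Real.one_le_exp_iff, hA]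
  nlinarith [mul_le_mul_of_nonneg_left h6 hl0, mul_le_mul_of_nonneg_left h7 hu]

theorem two_types {η : ℝ} (h : Ok τ Z η) (c : C3) :
    (2 / 3 - 2 * η) * Fintype.card V ≤ (Zᶜ.filter fun y => τ y ≠ c).card := by
  have k : ∀ c : C3, c + 1 ≠ c ∧ c + 2 ≠ c ∧ c + 1 ≠ c + 2 := by decide
  have h1 : Ty τ Z (c + 1) ∪ Ty τ Z (c + 2) ⊆ Zᶜ.filter fun y => τ y ≠ c := by
    intro y hy
    rcases mem_union.1 hy with hy | hy <;> rw [mem_Ty] at hy <;>
      refine mem_filter.2 ⟨mem_compl.2 hy.1, ?_⟩ <;> rw [hy.2]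
    exacts [(k c).1, (k c).2.1]
  have h2 := card_le_card h1
  rw [card_union_of_disjoint (disjoint_left.2 fun y h3 h4 =>
    (k c).2.2 ((mem_Ty.1 h3).2.symm.trans (mem_Ty.1 h4).2))] at h2
  have h3 := (Nat.cast_le (α := ℝ)).2 h2
  push_cast at h3
  linarith [h (c + 1), h (c + 2)]

theorem num {d n p s l : ℝ} (d0 : 0 < d) (d1 : d ≤ 1) (hn : 0 < n) (hp : 3 / 2 + d ≤ p * n)
    (s0 : d / 40 * n ≤ s) (s1 : s ≤ (d / 40 + d ^ 2 / 500) * n) (l1 : l ≤ d ^ 2 / 250 * n) :
    d / 12 * (s + l) - p * (1 - Real.exp (-(d / 12))) * (s * ((2 / 3 - 2 * (d / 100)) * n - s - l))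
      ≤ -(d ^ 3 / 3000 * n) := by
  have e1 : d / 12 * (1 - d / 12) ≤ 1 - Real.exp (-(d / 12)) := by
    have h1 := Real.add_one_le_exp (d / 12)
    have h2 : Real.exp (-(d / 12)) * Real.exp (d / 12) = 1 := by rw [← Real.exp_add]; simp
    have h3 := Real.exp_pos (-(d / 12))
    have h4 : Real.exp (-(d / 12)) * (d / 12 + 1) ≤ 1 := by nlinarith
    by_contra h5
    push Not at h5
    have h6 : (1 - d / 12 * (1 - d / 12)) * (d / 12 + 1) < 1 := by nlinarith
    nlinarith [pow_pos d0 3]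
  have hd2 : d ^ 2 ≤ d := by nlinarith
  have e2 : (2 / 3 - d / 15) * n ≤ (2 / 3 - 2 * (d / 100)) * n - s - l := by nlinarith
  have p0 : 0 ≤ p := by nlinarith
  have e3 : 1 + d / 2 ≤ p * ((2 / 3 - 2 * (d / 100)) * n - s - l) := by
    have := mul_le_mul_of_nonneg_left e2 p0
    nlinarith [mul_le_mul_of_nonneg_left hp (show 0 ≤ 2 / 3 - d / 15 by linarith)]
  have sp : 0 ≤ s := le_trans (by positivity) s0
  have e4 : d / 12 * (1 + d / 3) ≤
      (1 - Real.exp (-(d / 12))) * (p * ((2 / 3 - 2 * (d / 100)) * n - s - l)) := by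
    refine le_trans ?_ (mul_le_mul e1 e3 (by linarith) (le_trans (by nlinarith) e1))
    nlinarith [mul_le_mul_of_nonneg_left hd2 d0.le]
  have e5 := mul_le_mul_of_nonneg_left e4 sp
  have e6 := mul_le_mul_of_nonneg_left s0 (sq_nonneg d)
  have e7 := mul_le_mul_of_nonneg_left l1 d0.le
  have e8 : 0 ≤ d ^ 3 * n := by positivity
  nlinarith

end PATH

open PATH in
theorem rowPATH : SPATH := by
  intro δ hδ
  obtain ⟨d, d0, d1, hd⟩ : ∃ d : ℝ, 0 < d ∧ d ≤ 1 ∧ d ≤ δ :=
    ⟨min δ 1, lt_min hδ one_pos, min_le_right _ _, min_le_left _ _⟩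
  refine ⟨d ^ 2 / 500, d / 100, by positivity, by positivity, fun κ hκ => ?_⟩
  obtain ⟨N, hN⟩ := exists_nat_ge (1000 / d ^ 2 + 3000 / (d ^ 3 * κ))
  refine ⟨N, fun V _ _ τ Z p hn hO p1 hp => ?_⟩
  set n : ℝ := (Fintype.card V : ℝ) with hn'
  have h1 : 1000 / d ^ 2 + 3000 / (d ^ 3 * κ) ≤ n := hN.trans (Nat.cast_le.2 hn)
  have h2 : 0 < 1000 / d ^ 2 := by positivity
  have h3 : 0 < 3000 / (d ^ 3 * κ) := by positivity
  have n0 : 0 < n := by linarith
  have h4 : 1000 ≤ n * d ^ 2 := (div_le_iff₀ (by positivity)).1 (by linarith)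
  have h5 : 3000 ≤ n * (d ^ 3 * κ) := (div_le_iff₀ (by positivity)).1 (by linarith)
  have : Nonempty V := Fintype.card_pos_iff.1 (Nat.cast_pos.1 n0)
  have p0 : 0 ≤ p := by nlinarith
  have s0 := Nat.le_ceil (d / 40 * n)
  have s1 := (Nat.ceil_lt_add_one (show 0 ≤ d / 40 * n by positivity)).le
  have l0 := Nat.le_ceil (d ^ 2 / 500 * n)
  have l1 := (Nat.ceil_lt_add_one (show 0 ≤ d ^ 2 / 500 * n by positivity)).le
  have hd2 : d ^ 2 ≤ d := by nlinarith
  have hs : ⌈d / 40 * n⌉₊ ≤ Zᶜ.card := by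
    have h6 := (two_types hO 0).trans (Nat.cast_le.2 (card_filter_le _ _))
    rw [← Nat.cast_le (α := ℝ)]
    nlinarith
  have h6 := core (τ := τ) (L := ⌈d ^ 2 / 500 * n⌉₊) (u := d / 12) p0 p1 (by positivity)
    (two_types hO) hs
  refine le_trans (Ex_mono p0 p1 fun Γ _ => ind_mono fun h ⟨v, a, hc⟩ => h ⟨_, v, a, l0, hc⟩)
    (h6.trans ?_)
  refine le_trans (Real.exp_le_exp.2 (num d0 d1 n0 (by linarith) s0 (by nlinarith)
    (by nlinarith))) ?_
  have h7 := Real.add_one_le_exp (d ^ 3 / 3000 * n)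
  rw [Real.exp_neg, inv_le_comm₀ (Real.exp_pos _) hκ, inv_le_iff_one_le_mul₀ hκ]
  nlinarith

end Pool.Agent.MP_81f5b7_pr.H66
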